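import Mathlib
import Pool.Agent.W809.ZQ.Stm

/-!
# Project ZQ, part AB1: if no non-trivial character is open, the group is zero-dimensional
-/

set_option autoImplicit false

open Set Filter Topology

namespace Pool.Agent.W407.ZQ

open Pool.Agent.W809.ZQ

theorem dg_inv {n : ℕ} (P c : U n) (i : Fin n) : dg P c⁻¹ i = star (dg P c i) := by
  unfold dg
  have h : (P * c⁻¹ * P⁻¹ : U n) = (P * c * P⁻¹)⁻¹ := by group
  rw [h]
  have h2 : (((P * c * P⁻¹)⁻¹ : U n) : Mt n) = star ((P * c * P⁻¹ : U n) : Mt n) := rfl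
  rw [h2, Matrix.star_apply]

theorem dg_one {n : ℕ} (P : U n) (i : Fin n) : dg P 1 i = 1 := by
  unfold dg
  have h : (P * 1 * P⁻¹ : U n) = 1 := by group
  rw [h]
  simp

theorem dg_norm {n : ℕ} {C : Subgroup (U n)} {P : U n} (hP : Dia P C) {c : U n} (hc : c ∈ C)
    (i : Fin n) : ‖dg P c i‖ = 1 := by
  have h1 : ((P * c * P⁻¹ : U n) : Mt n) * star ((P * c * P⁻¹ : U n) : Mt n) = 1 :=
    (Matrix.mem_unitaryGroup_iff).1 (P * c * P⁻¹ : U n).2
  have h2 := congrFun (congrFun h1 i) i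
  rw [Matrix.mul_apply, Matrix.one_apply_eq, Finset.sum_eq_single i] at h2
  · rw [Matrix.star_apply] at h2
    have h3 : (dg P c i) * star (dg P c i) = 1 := h2
    have h4 : ‖dg P c i‖ * ‖dg P c i‖ = 1 := by
      have := congrArg norm h3
      rwa [norm_mul, norm_star, norm_one] at this
    nlinarith [norm_nonneg (dg P c i)]
  · intro j _ hj
    rw [hP c hc i j (Ne.symm hj), zero_mul]
  · intro h
    exact absurd (Finset.mem_univ i) h

theorem dg_cont {n : ℕ} (P : U n) (i : Fin n) : Continuous fun c : U n => dg P c i := by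
  unfold dg
  have h1 : Continuous fun c : U n => ((P * c * P⁻¹ : U n) : Mt n) := by fun_prop
  exact (continuous_apply i).comp ((continuous_apply i).comp h1)

theorem small {n : ℕ} {C : Subgroup (U n)} {P : U n} (hP : Dia P C) {O : Set (U n)}
    (hO : O ∈ 𝓝 (1 : U n)) :
    ∃ ε > (0 : ℝ), ∀ c ∈ C, (∀ j, ‖dg P c j - 1‖ < ε) → c ∈ O := by
  rw [nhds_subtype_eq_comap, mem_comap] at hO
  obtain ⟨W, hW, hWO⟩ := hO
  let F : (Fin n → ℂ) → Mt n := fun χ => ((P⁻¹ : U n) : Mt n) * Matrix.diagonal χ * (P : Mt n)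
  have hF : Continuous F := by
    have h1 : Continuous fun χ : Fin n → ℂ => (Matrix.diagonal χ : Mt n) :=
      Continuous.matrix_diagonal continuous_id
    exact (continuous_const.mul h1).mul continuous_const
  have hPP : ((P⁻¹ : U n) : Mt n) * (P : Mt n) = 1 := by
    rw [← Submonoid.coe_mul, inv_mul_cancel]; rfl
  have hF1 : F (fun _ => 1) = 1 := by
    have : (Matrix.diagonal (fun _ : Fin n => (1 : ℂ)) : Mt n) = 1 := Matrix.diagonal_one
    show ((P⁻¹ : U n) : Mt n) * Matrix.diagonal (fun _ => (1 : ℂ)) * (P : Mt n) = 1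
    rw [this, mul_one, hPP]
  have h3 : F ⁻¹' W ∈ 𝓝 (fun _ : Fin n => (1 : ℂ)) := by
    refine hF.continuousAt.preimage_mem_nhds ?_
    rw [hF1]
    exact hW
  obtain ⟨ε, hε, hb⟩ := Metric.mem_nhds_iff.1 h3
  refine ⟨ε, hε, fun c hc hj => ?_⟩
  have h4 : (fun j => dg P c j) ∈ Metric.ball (fun _ : Fin n => (1 : ℂ)) ε := by
    rw [Metric.mem_ball, dist_pi_lt_iff hε]
    intro j
    rw [dist_eq_norm]
    exact hj j
  have h5 := hb h4
  have h6 : F (fun j => dg P c j) = (c : Mt n) := by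
    have h7 : (Matrix.diagonal (fun j => dg P c j) : Mt n) = ((P * c * P⁻¹ : U n) : Mt n) := by
      ext i j
      by_cases hij : i = j
      · subst hij
        rw [Matrix.diagonal_apply_eq]
        rfl
      · rw [Matrix.diagonal_apply_ne _ hij, hP c hc i j hij]
    show ((P⁻¹ : U n) : Mt n) * Matrix.diagonal (fun j => dg P c j) * (P : Mt n) = (c : Mt n)
    rw [h7, ← Submonoid.coe_mul, ← Submonoid.coe_mul]
    congr 1
    group
  apply hWO
  show (c : Mt n) ∈ W
  rw [← h6]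
  exact h5

theorem unit_dist {z w : ℂ} (hz : ‖z‖ = 1) (hw : ‖w‖ = 1) (h : ‖w - 1‖ = ‖z - 1‖) :
    w = z ∨ star w = z := by
  have e : ∀ u : ℂ, ‖u‖ = 1 → u.re * u.re + u.im * u.im = 1 := by
    intro u hu
    have h1 := Complex.normSq_eq_norm_sq u
    rw [hu, Complex.normSq_apply] at h1
    linarith
  have f : ∀ u : ℂ, ‖u - 1‖ ^ 2 = (u.re - 1) * (u.re - 1) + u.im * u.im := by
    intro u
    have h1 := Complex.normSq_eq_norm_sq (u - 1)
    rw [Complex.normSq_apply] at h1
    simp at h1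
    linarith
  have h1 := e z hz
  have h2 := e w hw
  have h3 := f z
  have h4 := f w
  rw [h] at h4
  have hre : w.re = z.re := by nlinarith
  have him : (w.im - z.im) * (w.im + z.im) = 0 := by
    rw [hre] at h2
    nlinarith
  rcases mul_eq_zero.1 him with h5 | h5
  · left
    exact Complex.ext hre (by linarith)
  · right
    refine Complex.ext ?_ ?_
    · simpa using hre
    · simp
      linarith

theorem ab1 : S_AB1 := by
  intro n C P hP hop O hO
  classical
  have key : ∀ i : Fin n, ∃ Oi ∈ 𝓝 (1 : U n), (∃ c ∈ C, dg P c i ≠ 1) →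
      ∀ δ > (0 : ℝ), ∃ z : ℂ, ‖z‖ = 1 ∧ ‖z - 1‖ < δ ∧ ∀ c ∈ C, c ∈ Oi → dg P c i ≠ z := by
    intro i
    by_cases hi : ∃ c ∈ C, dg P c i ≠ 1
    · have h1 := hop i hi
      unfold OpenChar at h1
      push Not at h1
      obtain ⟨Oi, hOi, h2⟩ := h1
      refine ⟨Oi, hOi, fun _ δ hδ => ?_⟩
      obtain ⟨z, hz1, hz2, hz3⟩ := h2 δ hδ
      exact ⟨z, hz1, hz2, hz3⟩
    · exact ⟨univ, univ_mem, fun h => absurd h hi⟩
  choose Oi hOi hz using key
  have hO' : O ∩ ⋂ i, Oi i ∈ 𝓝 (1 : U n) :=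
    Filter.inter_mem hO (Filter.iInter_mem.2 hOi)
  obtain ⟨ε, hε, hsm⟩ := small hP hO'
  have key2 : ∀ i : Fin n, ∃ t : ℝ, 0 < t ∧ t ≤ ε ∧
      ∀ c ∈ C, ‖dg P c i - 1‖ ≤ t → (‖dg P c i - 1‖ < ε ∧
        (c ∈ Oi i → c⁻¹ ∈ Oi i → ‖dg P c i - 1‖ < t)) := by
    intro i
    by_cases hi : ∃ c ∈ C, dg P c i ≠ 1
    · obtain ⟨z, hz1, hz2, hz3⟩ := hz i hi ε hε
      refine ⟨‖z - 1‖, ?_, hz2.le, ?_⟩
      · rw [norm_pos_iff, sub_ne_zero]
        intro h
        exact hz3 1 C.one_mem (mem_of_mem_nhds (hOi i)) (by rw [dg_one, h])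
      · intro c hc hle
        refine ⟨lt_of_le_of_lt hle hz2, fun hcO hcO' => ?_⟩
        refine lt_of_le_of_ne hle fun heq => ?_
        rcases unit_dist hz1 (dg_norm hP hc i) heq with h | h
        · exact hz3 c hc hcO h
        · rw [← dg_inv] at h
          exact hz3 c⁻¹ (C.inv_mem hc) hcO' h
    · push Not at hi
      refine ⟨ε, hε, le_rfl, fun c hc _ => ?_⟩
      rw [hi c hc, sub_self, norm_zero]
      exact ⟨hε, fun _ _ => hε⟩
  choose t ht0 htε ht using key2
  refine ⟨{x : C | ∀ i, ‖dg P (x : U n) i - 1‖ < t i}, ⟨?_, ?_⟩, ?_, ?_⟩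
  · have hQ : {x : C | ∀ i, ‖dg P (x : U n) i - 1‖ < t i} =
        {x : C | ∀ i, ‖dg P (x : U n) i - 1‖ ≤ t i} := by
      ext x
      constructor
      · intro h i
        exact (h i).le
      · intro h
        have h1 : ∀ j, ‖dg P (x : U n) j - 1‖ < ε := fun j => (ht j x x.2 (h j)).1
        have h2 := hsm x x.2 h1
        have h3 : ((x : U n)⁻¹ : U n) ∈ O ∩ ⋂ i, Oi i := by
          refine hsm _ (C.inv_mem x.2) fun j => ?_
          have h4 : dg P (x : U n)⁻¹ j - 1 = star (dg P (x : U n) j - 1) := by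
            rw [dg_inv, star_sub, star_one]
          rw [h4, norm_star]
          exact h1 j
        intro i
        exact (ht i x x.2 (h i)).2 (mem_iInter.1 h2.2 i) (mem_iInter.1 h3.2 i)
    rw [hQ, Set.ofPred_forall]
    refine isClosed_iInter fun i => ?_
    have hc : Continuous fun x : C => ‖dg P (x : U n) i - 1‖ :=
      (((dg_cont P i).comp continuous_subtype_val).sub continuous_const).norm
    exact isClosed_le hc continuous_const
  · rw [Set.ofPred_forall]
    refine isOpen_iInter_of_finite fun i => ?_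
    have hc : Continuous fun x : C => ‖dg P (x : U n) i - 1‖ :=
      (((dg_cont P i).comp continuous_subtype_val).sub continuous_const).norm
    exact isOpen_lt hc continuous_const
  · intro i
    show ‖dg P ((1 : C) : U n) i - 1‖ < t i
    rw [Subgroup.coe_one, dg_one, sub_self, norm_zero]
    exact ht0 i
  · intro x hx
    exact (hsm x x.2 fun j => lt_of_lt_of_le (hx j) (htε j)).1

end Pool.Agent.W407.ZQ
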